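import Pool.Agent.Y128.CY.Stm
import Pool.Agent.Y128.SJ.Comb

/-!
# Hodge characters of prime degree are paired

`t_PAIR : S_PAIR` of `Pool.Agent.Y128.CY.Stm`: for the degree `n = p` the multiplicities of
`Pool.Agent.Y128.SJ.Comb` are the values of the sawtooth function.
-/

set_option autoImplicit false

namespace Pool.Agent.Y317.CY

open Finset Pool.Agent.H916R2 Pool.Agent.Y128.SJ

/-- Hodge characters of prime degree are paired -/
theorem pair (p : ℕ) [hp : Fact p.Prime] (T : Type) [Fintype T] (a : T → ℕ)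
    (ha : ∀ x, 0 < a x ∧ a x < p)
    (h : ∀ s : ℕ, s.Coprime p → ∑ x, (((s * a x) % p : ℕ) : ℚ) / p = (Fintype.card T : ℚ) / 2)
    (u : ℕ) (hu : 0 < u) (hup : u < p) : Nat.card {x // a x = u} = Nat.card {x // a x = p - u} := by
  classical
  have hp2 : 2 ≤ p := hp.out.two_le
  have hne : ∀ k : ℕ, 0 < k → k < p → (k : ZMod p) ≠ 0 := by
    intro k h1 h2 h0
    rw [ZMod.natCast_eq_zero_iff] at h0
    exact absurd (Nat.le_of_dvd h1 h0) (by omega)
  obtain ⟨v, hv⟩ : ∃ v : T → (ZMod p)ˣ, ∀ x, (v x : ZMod p) = (a x : ZMod p) :=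
    ⟨fun x => Units.mk0 (a x : ZMod p) (hne _ (ha x).1 (ha x).2), fun x => rfl⟩
  obtain ⟨c, hcd⟩ : ∃ c : (ZMod p)ˣ → ℤ, ∀ j, c j = ((univ.filter fun x => v x = j).card : ℤ) :=
    ⟨_, fun j => rfl⟩
  have hsaw : ∀ j : (ZMod p)ˣ,
      2 * (mult p p (j : ZMod p) : ℤ) - rank p p = saw (j : ZMod p) := by
    intro j
    have h1 := two_mult (p := p) hp2 j
    rw [ZMod.natCast_self, zero_mul, saw_zero, sub_zero] at h1
    have hp0 : (p : ℤ) ≠ 0 := by exact_mod_cast hp.out.ne_zero
    exact mul_left_cancel₀ hp0 h1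
  have hc : ∀ s : (ZMod p)ˣ, ∑ j, c j * (2 * (mult p p ((j * s : (ZMod p)ˣ) : ZMod p) : ℤ) -
      rank p p) = 0 := by
    intro s
    have e1 : ∀ j, c j * (2 * (mult p p ((j * s : (ZMod p)ˣ) : ZMod p) : ℤ) - rank p p) =
        ∑ x ∈ univ.filter (fun x => v x = j), saw ((v x * s : (ZMod p)ˣ) : ZMod p) := by
      intro j
      have e2 : ∀ x ∈ univ.filter (fun x => v x = j), saw ((v x * s : (ZMod p)ˣ) : ZMod p) =
          saw ((j * s : (ZMod p)ˣ) : ZMod p) := by
        intro x hx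
        rw [(mem_filter.1 hx).2]
      rw [sum_congr rfl e2, sum_const, nsmul_eq_mul, hsaw, hcd]
    rw [sum_congr rfl fun j _ => e1 j, Finset.sum_fiberwise]
    have e3 : ∀ x, saw ((v x * s : (ZMod p)ˣ) : ZMod p) =
        2 * ((((s : ZMod p).val * a x) % p : ℕ) : ℤ) - p := by
      intro x
      have e4 : ((v x * s : (ZMod p)ˣ) : ZMod p) = (((s : ZMod p).val * a x : ℕ) : ZMod p) := by
        rw [Units.val_mul, hv, Nat.cast_mul, ZMod.natCast_zmod_val, mul_comm]
      have e5 : ((v x * s : (ZMod p)ˣ) : ZMod p) ≠ 0 := (v x * s).ne_zero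
      rw [saw, if_neg e5, e4, ZMod.val_natCast]
    rw [sum_congr rfl fun x _ => e3 x]
    have e6 := h (s : ZMod p).val (ZMod.val_coe_unit_coprime s)
    have hp0 : (p : ℚ) ≠ 0 := by exact_mod_cast hp.out.ne_zero
    rw [← sum_div, div_eq_iff hp0] at e6
    have e7 : ((∑ x, (2 * ((((s : ZMod p).val * a x) % p : ℕ) : ℤ) - p) : ℤ) : ℚ) = 0 := by
      rw [Int.cast_sum]
      have e8 : ∀ x, ((2 * ((((s : ZMod p).val * a x) % p : ℕ) : ℤ) - p : ℤ) : ℚ) =
          2 * ((((s : ZMod p).val * a x) % p : ℕ) : ℚ) - p := by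
        intro x
        rw [Int.cast_sub, Int.cast_mul, Int.cast_natCast, Int.cast_natCast]
        norm_num
      rw [sum_congr rfl fun x _ => e8 x, sum_sub_distrib, ← mul_sum, e6, sum_const, card_univ,
        nsmul_eq_mul]
      ring
    exact_mod_cast e7
  have key := comb (p := p) hp2 hc (Units.mk0 (u : ZMod p) (hne u hu hup))
  rw [hcd, hcd] at key
  have key' : (univ.filter fun x => v x = Units.mk0 (u : ZMod p) (hne u hu hup)).card =
      (univ.filter fun x => v x = -Units.mk0 (u : ZMod p) (hne u hu hup)).card := by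
    exact_mod_cast key
  rw [Nat.card_eq_fintype_card, Nat.card_eq_fintype_card, Fintype.card_subtype,
    Fintype.card_subtype]
  have f1 : (univ.filter fun x => a x = u) =
      univ.filter fun x => v x = Units.mk0 (u : ZMod p) (hne u hu hup) := by
    refine filter_congr fun x _ => ?_
    rw [Units.ext_iff, hv, Units.val_mk0, ZMod.natCast_eq_natCast_iff', Nat.mod_eq_of_lt (ha x).2,
      Nat.mod_eq_of_lt hup]
  have f2 : (univ.filter fun x => a x = p - u) =
      univ.filter fun x => v x = -Units.mk0 (u : ZMod p) (hne u hu hup) := by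
    refine filter_congr fun x _ => ?_
    have f3 : (-(u : ZMod p)) = ((p - u : ℕ) : ZMod p) := by
      rw [Nat.cast_sub hup.le, ZMod.natCast_self, zero_sub]
    rw [Units.ext_iff, hv, Units.val_neg, Units.val_mk0, f3, ZMod.natCast_eq_natCast_iff',
      Nat.mod_eq_of_lt (ha x).2, Nat.mod_eq_of_lt (by omega : p - u < p)]
  rw [f1, f2, key']

/-- **PAIR** -/
theorem t_PAIR : Pool.Agent.Y128.CY.S_PAIR := by
  intro p hp T _ a ha h u hu hup
  exact pair p T a ha h u hu hup

end Pool.Agent.Y317.CY
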